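import Mathlib
import Pool.Agent.H6.WC

set_option autoImplicit false

namespace Pool.Agent.Results.MP_4b0b35_an.Spectrum

/-- The Hardy space `H²` is modelled by a Hilbert space `E` with an orthonormal basis `b` indexed by `ℕ`,
`b n` playing the role of `z^n`. The element `f` of `E` is the function with Taylor coefficients `⟪b n, f⟫`,
and `val b f z` is its value at the point `z` of the unit disc. -/
noncomputable def val {E : Type*} [NormedAddCommGroup E] [InnerProductSpace ℂ E]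
    (b : HilbertBasis ℕ ℂ E) (f : E) (z : ℂ) : ℂ :=
  ∑' n : ℕ, inner ℂ (b n) f * z ^ n

/-- `T` is the weighted composition operator `f ↦ ψ · (f ∘ φ)` on `H²`. -/
def IsWeightedComposition {E : Type*} [NormedAddCommGroup E] [InnerProductSpace ℂ E]
    (b : HilbertBasis ℕ ℂ E) (ψ φ : ℂ → ℂ) (T : E →L[ℂ] E) : Prop :=
  ∀ (f : E) (z : ℂ), ‖z‖ < 1 → val b (T f) z = ψ z * val b f (φ z)

/-- If a weighted composition operator `f ↦ ψ · (f ∘ φ)` is compact on `H²` and the analytic selfmap `φ`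
of the unit disc has no fixed point in the disc, then its spectrum is `{0}`, and it has no nonzero
eigenvalue. -/
theorem result {E : Type*} [NormedAddCommGroup E] [InnerProductSpace ℂ E] [CompleteSpace E]
    (b : HilbertBasis ℕ ℂ E) (ψ φ : ℂ → ℂ)
    (hφ : DifferentiableOn ℂ φ (Metric.ball (0 : ℂ) 1))
    (hmaps : Set.MapsTo φ (Metric.ball (0 : ℂ) 1) (Metric.ball (0 : ℂ) 1))
    (hfix : ∀ p ∈ Metric.ball (0 : ℂ) 1, φ p ≠ p)
    (T : E →L[ℂ] E) (hT : IsWeightedComposition b ψ φ T) (hc : IsCompactOperator T) :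
    spectrum ℂ T = {0} ∧ ∀ μ : ℂ, μ ≠ 0 → ∀ f : E, T f = μ • f → f = 0 :=
  ⟨Pool.Agent.H6.WC.spectrum_eq b hφ hmaps hfix hT hc,
    fun _ hμ _ hf => Pool.Agent.H6.WC.no_eigen b hφ hmaps hfix hT hc hμ hf⟩

end Pool.Agent.Results.MP_4b0b35_an.Spectrum
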